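import Mathlib
import Pool.Agent.L0h42.CL.Top
import Pool.Agent.L0h89.CL.LOW

/-!
# Bounded gaps between the arguments at which a quadratic polynomial is prime, for almost all constant terms

Let `f(t) = a t² + b t + c`, `a > 0`. Conjecture F predicts the number of the `t` for which `f(t)` is prime; the
prediction for several `t` at bounded distances (infinitely many `t` with `f(t)`, `f(t + h)` prime, ...) belongs to the
same circle of questions.

(1) For every `m` there is `R` such that for all `a > 0`, `b` and all `A`, `B` there is `E` with: for all large `X`, for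
all but at most `X / (log X)^A` of the `c ≤ X` for which `(a, b, c)` is admissible, EVERY interval of length at least
`√X / (log X)^B` below `√X (log X)^B` contains at least `√X / (log X)^E` integers `t` for which at least `m` of the numbers
`f(t + 1), ..., f(t + R)` are primes. The number `R` depends only on `m`.

(2) For every `m` there is `k` such that for all distinct integers `h_1, ..., h_k ≥ 0`, all `a > 0`, `b` and all `A`, `B`
there is `E` with: for all large `X`, for all but at most `X / (log X)^A` of the `c ≤ X` for which no prime divides all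
the values `∏ f(t + h_i)`, every such interval contains at least `√X / (log X)^E` integers `t` for which at least `m` of
the numbers `f(t + h_1), ..., f(t + h_k)` are primes.

Proof (`Pool/Agent/L0h42/CL` and the modules it imports): the method of Maynard and Tao along the values of `f` for a
fixed constant term `c`. The divisors in the weights have no prime factor up to a power of `log X`; the number of roots of
`f` modulo these divisors has the expected mean for almost all `c` (second moment over `c`), so the main terms are those of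
the linear case for all but `X / (log X)^A` of the `c`. The primes among the `f(t + h_i)` are replaced by integers without
small prime factors by the circle method: the Weyl sums over `t` in a residue class to a modulus `D ≤ X^(1/20)` are small
on average over `D` outside the major arcs, the majorants have period `1 / D`, so that the residue classes of the primes
modulo `D` can be summed by Parseval's identity, and in the major arcs the theorem of Siegel and Walfisz suffices.
-/

set_option autoImplicit false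

namespace Pool.Agent.Results.MP_a17b09_nt.ClustersOfArguments

open Finset

/-- The polynomial. -/
def f (a b c t : ℤ) : ℤ := a * t ^ 2 + b * t + c

/-- The triple `(a, b, c)` is admissible. -/
def Admissible (a b c : ℤ) : Prop :=
  0 < a ∧ Int.gcd (Int.gcd a b : ℤ) c = 1 ∧ ¬ (Even (a + b) ∧ Even c) ∧ ¬ IsSquare (b ^ 2 - 4 * a * c)

/-- The number of the `1 ≤ j ≤ R` for which `f(t + j)` is a (positive) prime. -/
def primesAfter (a b c : ℤ) (R t : ℕ) : ℕ := ((Icc 1 R).filter (fun j : ℕ => (f a b c (t + j)).toNat.Prime)).card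

/-- The number of the `i` for which `f(t + h_i)` is a (positive) prime. -/
def primesAmong {k : ℕ} (a b c : ℤ) (h : Fin k → ℕ) (t : ℕ) : ℕ :=
  (univ.filter (fun i => (f a b c (t + h i)).toNat.Prime)).card

open Classical in
/-- Every interval `(T, T + M]` with `M ≥ √X / (log X)^B` and `T + M ≤ √X (log X)^B` contains at least `√X / (log X)^E`
integers with the property `P`. -/
def InEveryInterval (X B E : ℕ) (P : ℕ → Prop) : Prop :=
  ∀ T M : ℕ, √(X : ℝ) / Real.log X ^ B ≤ M → (T : ℝ) + M ≤ √(X : ℝ) * Real.log X ^ B →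
    √(X : ℝ) / Real.log X ^ E ≤ (((Ioc T (T + M)).filter P).card : ℝ)

/-- No prime divides all the values of the product of the `f(t + h_i)`. -/
def NoFixed {k : ℕ} (a b c : ℤ) (h : Fin k → ℕ) : Prop :=
  ∀ p : ℕ, p.Prime → ∃ t : ℤ, ¬ (p : ℤ) ∣ ∏ i, f a b c (t + h i)

open Classical in
/-- The number of the exceptions `c ≤ X` in (1). -/
noncomputable def exceptions₁ (a b : ℤ) (m R B E X : ℕ) : ℕ :=
  ((Icc 1 X).filter (fun c : ℕ => Admissible a b c ∧ ¬ InEveryInterval X B E (fun t => m ≤ primesAfter a b c R t))).card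

open Classical in
/-- The number of the exceptions `c ≤ X` in (2). -/
noncomputable def exceptions₂ {k : ℕ} (a b : ℤ) (h : Fin k → ℕ) (m B E X : ℕ) : ℕ :=
  ((Icc 1 X).filter (fun c : ℕ => NoFixed a b c h ∧ ¬ InEveryInterval X B E (fun t => m ≤ primesAmong a b c h t))).card

open Pool.Agent.L0h42.CL

lemma f_gz (a b c t : ℤ) : f a b c t = c + gz a b t := by unfold f gz; ring

lemma not_dvd {a b c : ℤ} (h : Admissible a b c) {p : ℕ} (hp : p.Prime) (ha : (p : ℤ) ∣ a) (hb : (p : ℤ) ∣ b) :
    ¬ (p : ℤ) ∣ c := by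
  intro hc
  have h1 : (p : ℤ) ∣ (Int.gcd (Int.gcd a b : ℤ) c : ℤ) := Int.dvd_coe_gcd (Int.dvd_coe_gcd ha hb) hc
  rw [h.2.1] at h1
  have h2 : p ∣ 1 := by exact_mod_cast h1
  exact hp.one_lt.ne' (Nat.dvd_one.1 h2)

/-- an admissible polynomial has no fixed prime divisor -/
lemma no_fixed {a b c : ℤ} (h : Admissible a b c) (p : ℕ) (hp : p.Prime) : ∃ t : ℤ, ¬ (p : ℤ) ∣ c + gz a b t := by
  by_contra hcon
  push Not at hcon
  have h0 := hcon 0
  have h1 := hcon 1
  have h2 := hcon 2
  unfold gz at h0 h1 h2
  have g0 : (p : ℤ) ∣ c := by simpa using h0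
  have g1 : (p : ℤ) ∣ a + b := by
    have : (p : ℤ) ∣ (c + (a * 1 ^ 2 + b * 1)) - c := dvd_sub h1 g0
    have e : (c + (a * 1 ^ 2 + b * 1)) - c = a + b := by ring
    rwa [e] at this
  have g2 : (p : ℤ) ∣ 2 * a := by
    have : (p : ℤ) ∣ (c + (a * 2 ^ 2 + b * 2)) - c - 2 * (a + b) := dvd_sub (dvd_sub h2 g0) (Dvd.dvd.mul_left g1 2)
    have e : (c + (a * 2 ^ 2 + b * 2)) - c - 2 * (a + b) = 2 * a := by ring
    rwa [e] at this
  by_cases hp2 : p = 2
  · subst hp2
    exact h.2.2.1 ⟨even_iff_two_dvd.2 (by exact_mod_cast g1), even_iff_two_dvd.2 (by exact_mod_cast g0)⟩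
  · have hpz : Prime (p : ℤ) := Nat.prime_iff_prime_int.1 hp
    rcases hpz.dvd_or_dvd g2 with g | g
    · have : p ∣ 2 := by exact_mod_cast g
      exact hp2 ((Nat.prime_dvd_prime_iff_eq hp Nat.prime_two).1 this)
    · have gb : (p : ℤ) ∣ b := (dvd_add_right g).1 g1
      exact not_dvd h hp g gb g0

open Classical in
/-- a tuple of multiples of all the small primes has no fixed prime divisor -/
lemma nfix_of {k : ℕ} (a b : ℤ) (h : Fin k → ℕ) (c : ℕ) (hh : ∀ l, ∀ p : ℕ, p.Prime → p ≤ 2 * k → p ∣ h l)
    (hadm : Admissible a b c) : NFix a b h c := by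
  intro p hp
  have h1 := Pool.Agent.L0h89.CL.nuq_lt a b h p c hp (fun l hk => hh l p hp hk) (no_fixed hadm p hp)
  by_contra hcon
  push Not at hcon
  have h2 : nuq a b h p c = p := by
    unfold nuq
    rw [filter_true_of_mem, card_range]
    intro τ _
    obtain ⟨l, hl⟩ := hcon τ
    refine ⟨l, ?_⟩
    unfold cq
    rw [sub_neg_eq_add]
    exact hl
  omega

lemma nfix_iff {k : ℕ} (a b : ℤ) (h : Fin k → ℕ) (c : ℕ) (hn : NoFixed a b c h) : NFix a b h c := by
  intro p hp
  obtain ⟨t, ht⟩ := hn p hp
  refine ⟨t, fun l hl => ht ?_⟩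
  refine dvd_trans ?_ (dvd_prod_of_mem (fun i => f a b c (t + h i)) (mem_univ l))
  rw [f_gz]
  exact hl

lemma va_eq (a b : ℤ) (c s : ℕ) : va a b c s = (f a b c s).toNat := by
  unfold va
  rw [f_gz]

lemma among_eq {k : ℕ} (a b : ℤ) (c : ℕ) (h : Fin k → ℕ) (t : ℕ) : npq a b h c t = primesAmong a b c h t := by
  unfold npq primesAmong
  congr 1
  apply filter_congr
  intro i _
  rw [va_eq]
  push_cast
  rfl

/-- the step from the two forms of the condition on the intervals -/
lemma evy_of (X B E : ℕ) (hX : 0 < Real.log X) (P Q : ℕ → Prop) [DecidablePred P] (hPQ : ∀ t, P t → Q t)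
    (h : Evy X B E P) : InEveryInterval X B E Q := by
  intro T M h1 h2
  have hp : 0 < Real.log X ^ B := pow_pos hX B
  refine le_trans (h T M ((div_le_iff₀ hp).1 h1) h2) ?_
  rw [Nat.cast_le]
  refine card_le_card ?_
  intro t ht
  have h3 := mem_filter.1 ht
  classical
  exact mem_filter.2 ⟨h3.1, hPQ t h3.2⟩

open Classical in
/-- **Main theorem.** -/
theorem result :
    (∀ m : ℕ, 1 ≤ m → ∃ R : ℕ, ∀ a b : ℤ, 0 < a → ∀ A B : ℕ, ∃ E X₀ : ℕ, ∀ X : ℕ, X₀ ≤ X →
      (exceptions₁ a b m R B E X : ℝ) ≤ X / Real.log X ^ A) ∧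
    (∀ m : ℕ, 1 ≤ m → ∃ k : ℕ, ∀ h : Fin k → ℕ, Function.Injective h → ∀ a b : ℤ, 0 < a → ∀ A B : ℕ,
      ∃ E X₀ : ℕ, ∀ X : ℕ, X₀ ≤ X → (exceptions₂ a b h m B E X : ℝ) ≤ X / Real.log X ^ A) := by
  constructor
  · intro m hm
    obtain ⟨k, hk, hall⟩ := all_intervals core_all m hm
    obtain ⟨P, hP⟩ : ∃ P, P = (2 * k).factorial := ⟨_, rfl⟩
    have hP0 : 0 < P := by rw [hP]; exact Nat.factorial_pos _
    obtain ⟨h, hh⟩ : ∃ h : Fin k → ℕ, h = fun l : Fin k => P * ((l : ℕ) + 1) := ⟨_, rfl⟩
    have hinj : Function.Injective h := by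
      intro x y hxy
      rw [hh] at hxy
      have := Nat.eq_of_mul_eq_mul_left hP0 hxy
      exact Fin.ext (by omega)
    have hdvd : ∀ l, ∀ p : ℕ, p.Prime → p ≤ 2 * k → p ∣ h l := by
      intro l p hp hpk
      rw [hh]
      exact Dvd.dvd.mul_right (by rw [hP]; exact Nat.dvd_factorial hp.pos hpk) _
    refine ⟨P * k, fun a b ha A B => ?_⟩
    obtain ⟨E, X0, hE⟩ := hall h hinj a b (by omega) A B
    refine ⟨E, max X0 3, fun X hX => ?_⟩
    have hX0 : X0 ≤ X := le_trans (le_max_left _ _) hX
    have hX3 : 3 ≤ X := le_trans (le_max_right _ _) hX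
    have hlog : 0 < Real.log X := Real.log_pos (by exact_mod_cast (show 1 < X by omega))
    refine le_trans ?_ (hE X hX0)
    unfold exceptions₁ BadA
    norm_cast
    apply card_le_card
    intro c hc
    rw [mem_filter] at hc ⊢
    refine ⟨hc.1, nfix_of a b h c hdvd hc.2.1, fun hev => hc.2.2 ?_⟩
    apply evy_of X B E hlog _ _ _ hev
    intro t ht
    refine ht.trans ?_
    unfold npq primesAfter
    apply card_le_card_of_injOn h
    · intro l hl
      rw [mem_coe, mem_filter] at hl
      rw [mem_coe, mem_filter, mem_Icc]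
      refine ⟨⟨?_, ?_⟩, ?_⟩
      · rw [hh]
        exact Nat.mul_pos hP0 (Nat.succ_pos _)
      · rw [hh]
        exact Nat.mul_le_mul_left P (by have := l.2; omega)
      · have := hl.2
        rw [va_eq] at this
        push_cast at this
        exact this
    · exact hinj.injOn
  · intro m hm
    obtain ⟨k, hk, hall⟩ := all_intervals core_all m hm
    refine ⟨k, fun h hinj a b ha A B => ?_⟩
    obtain ⟨E, X0, hE⟩ := hall h hinj a b (by omega) A B
    refine ⟨E, max X0 3, fun X hX => ?_⟩
    have hX0 : X0 ≤ X := le_trans (le_max_left _ _) hX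
    have hX3 : 3 ≤ X := le_trans (le_max_right _ _) hX
    have hlog : 0 < Real.log X := Real.log_pos (by exact_mod_cast (show 1 < X by omega))
    refine le_trans ?_ (hE X hX0)
    unfold exceptions₂ BadA
    norm_cast
    apply card_le_card
    intro c hc
    rw [mem_filter] at hc ⊢
    refine ⟨hc.1, nfix_iff a b h c hc.2.1, fun hev => hc.2.2 ?_⟩
    apply evy_of X B E hlog _ _ _ hev
    intro t ht
    rw [among_eq] at ht
    exact ht

end Pool.Agent.Results.MP_a17b09_nt.ClustersOfArguments
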