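import Pool.Agent.L0h41.PE.D

set_option autoImplicit false

/-!
# Almost all members of every line of quadratic polynomials have almost prime values at the smallest arguments

Let `(a₀, b₀, c₀)` and `(a₁, b₁, c₁)` be integer vectors such that the polynomials `a₀ t² + b₀ t + c₀` and
`a₁ t² + b₁ t + c₁` have a nonzero resultant and the second one is positive for large `t`. Consider the line of the
triples `(a, b, c) = (a₀ + n a₁, b₀ + n b₁, c₀ + n c₁)`, `n = 1, 2, 3, ...`. For every `ε > 0` there is `κ > 0` such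
that for all large `λ` and `X` all but at most `ε X` of the integers `n ≤ X` for which `(a, b, c)` is admissible have
at least `κ λ` integers `1 ≤ t ≤ λ log X` for which `a t² + b t + c` has at most THREE prime factors, counted with
multiplicity, all of them `≥ X^(1/10)`. The same holds for the `n` in any interval of length `≥ X^θ`, with at most
`k` prime factors, `k > 1/8 + 25/(12θ)`, all of them `≥ X^(θ/10)`.

The directions `(1, 0, 0)`, `(0, 1, 0)`, `(0, 0, 1)` are the leading coefficients (for fixed `b` and `c ≠ 0`), the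
linear coefficients (for fixed `a > 0`, `c ≠ 0`) and the constant terms (for fixed `a > 0`, `b`).

Proof (`Pool/Agent/L0h41/PE`, for pencils `n g + h` of polynomials of any degree): the values are linear forms
`g(t) n + h(t)` in `n`; the second moment, over `n`, of the weighted linear sieve summed over the `t ≤ λ log X` for
which the value has no small prime factor (the engine `Pool.Agent.R490.LGd.mainH` of the starting library). For it one
needs that two forms of the family have, on average over the pairs `t, t'`, few common singular primes: for each prime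
`p` not dividing the resultant, the leading coefficients, the polynomial `g(s) h - h(s) g` is not zero modulo `p`, for
every `s`; and that `g(s) h(t) ≠ h(s) g(t)` for `s ≠ t` large, since `h / g` is eventually strictly monotone.
-/

namespace Pool.Agent.Results.MP_a17b09_nt.Lines

open Finset Polynomial

/-- The polynomial. -/
def f (a b c : ℤ) (t : ℕ) : ℤ := a * (t : ℤ) ^ 2 + b * (t : ℤ) + c

/-- The admissible triples of Conjecture F. -/
def Admissible (a b c : ℤ) : Prop :=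
  0 < a ∧ Int.gcd (Int.gcd a b : ℤ) c = 1 ∧ ¬ (Even (a + b) ∧ Even c) ∧ ¬ IsSquare (b ^ 2 - 4 * a * c)

/-- The resultant of `a₀ t² + b₀ t + c₀` and `a₁ t² + b₁ t + c₁`. -/
def resultant (a₀ b₀ c₀ a₁ b₁ c₁ : ℤ) : ℤ :=
  (a₁ * c₀ - a₀ * c₁) ^ 2 - (a₁ * b₀ - a₀ * b₁) * (b₁ * c₀ - b₀ * c₁)

open Classical in
/-- The number of the integers `1 ≤ t ≤ T` for which `f(t) ≥ 2` has at most `k` prime factors, counted with
multiplicity, all of them `≥ w`. -/
noncomputable def firstValues (a b c : ℤ) (k T : ℕ) (w : ℝ) : ℕ :=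
  ((Icc 1 T).filter (fun t : ℕ => 2 ≤ f a b c t ∧ (f a b c t).toNat.primeFactorsList.length ≤ k ∧
    ∀ p : ℕ, p.Prime → (p : ℤ) ∣ f a b c t → w ≤ (p : ℝ))).card

/-- an admissible polynomial has no fixed prime divisor -/
lemma no_fixed (a b c : ℤ) (h : Admissible a b c) (p : ℕ) (hp : p.Prime) :
    ∃ t : ℕ, ¬ (p : ℤ) ∣ f a b c t := by
  obtain ⟨_, hg, hpar, _⟩ := h
  by_contra hcon
  push Not at hcon
  have h0 := hcon 0
  have h1 := hcon 1
  have h2 := hcon 2
  unfold f at h0 h1 h2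
  push_cast at h0 h1 h2
  have hc : (p : ℤ) ∣ c := by simpa using h0
  have hab : (p : ℤ) ∣ a + b := by
    have := dvd_sub h1 hc
    have e : a * 1 + b * 1 + c - c = a + b := by ring
    rwa [e] at this
  have h2a : (p : ℤ) ∣ 2 * a := by
    have := dvd_sub (dvd_sub h2 hc) (hab.mul_left 2)
    have e : a * 4 + b * 2 + c - c - 2 * (a + b) = 2 * a := by ring
    rwa [e] at this
  rcases hp.eq_two_or_odd' with h | h
  · rw [h] at hc hab
    exact hpar ⟨(even_iff_two_dvd).2 (by exact_mod_cast hab), (even_iff_two_dvd).2 (by exact_mod_cast hc)⟩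
  · have hpZ : Prime (p : ℤ) := Nat.prime_iff_prime_int.1 hp
    have ha : (p : ℤ) ∣ a := by
      rcases hpZ.dvd_or_dvd h2a with h3 | h3
      · exfalso
        have h4 : p ∣ 2 := by exact_mod_cast h3
        have h5 := (Nat.prime_dvd_prime_iff_eq hp Nat.prime_two).1 h4
        rw [h5] at h
        exact absurd h (by decide)
      · exact h3
    have hb : (p : ℤ) ∣ b := (dvd_add_right ha).1 hab
    have h4 : (p : ℤ) ∣ Int.gcd a b := Int.dvd_coe_gcd ha hb
    have h5 : (p : ℤ) ∣ Int.gcd (Int.gcd a b : ℤ) c := Int.dvd_coe_gcd h4 hc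
    rw [hg] at h5
    have h6 : p ∣ 1 := by exact_mod_cast h5
    exact hp.one_lt.ne' (Nat.dvd_one.1 h6)

open Classical in
theorem result (a₀ b₀ c₀ a₁ b₁ c₁ : ℤ) (hres : resultant a₀ b₀ c₀ a₁ b₁ c₁ ≠ 0)
    (hpos : 0 < a₁ ∨ (a₁ = 0 ∧ 0 < b₁) ∨ (a₁ = 0 ∧ b₁ = 0 ∧ 0 < c₁))
    (θ ε : ℝ) (k : ℕ) (hθ : 0 < θ) (hθ1 : θ ≤ 1) (hk : 1 / 8 + 25 / (12 * θ) < k) (hε : 0 < ε) :
    ∃ κ Λ : ℝ, 0 < κ ∧ 0 < Λ ∧ ∀ lam : ℝ, Λ ≤ lam → ∃ X₀ : ℕ, ∀ X : ℕ, X₀ ≤ X → ∀ Z L : ℕ,
      (X : ℝ) ^ θ ≤ L → Z + L ≤ X →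
      (((Ioc Z (Z + L)).filter (fun n : ℕ => Admissible (a₀ + n * a₁) (b₀ + n * b₁) (c₀ + n * c₁) ∧
        (firstValues (a₀ + n * a₁) (b₀ + n * b₁) (c₀ + n * c₁) k ⌊lam * Real.log X⌋₊
          ((X : ℝ) ^ (θ / 10)) : ℝ) < κ * lam)).card : ℝ) ≤ ε * L := by
  obtain ⟨g, hg⟩ : ∃ g : ℤ[X], g = C a₁ * Polynomial.X ^ 2 + C b₁ * Polynomial.X + C c₁ := ⟨_, rfl⟩
  obtain ⟨h, hh⟩ : ∃ h : ℤ[X], h = C a₀ * Polynomial.X ^ 2 + C b₀ * Polynomial.X + C c₀ := ⟨_, rfl⟩
  have hge : ∀ t : ℤ, g.eval t = a₁ * t ^ 2 + b₁ * t + c₁ := by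
    intro t
    rw [hg]
    simp only [eval_add, eval_mul, eval_C, eval_X, eval_pow]
  have hhe : ∀ t : ℤ, h.eval t = a₀ * t ^ 2 + b₀ * t + c₀ := by
    intro t
    rw [hh]
    simp only [eval_add, eval_mul, eval_C, eval_X, eval_pow]
  have hbez : (C (a₁ * b₀ - a₀ * b₁) * (C a₀ * Polynomial.X + C b₀) - C ((a₁ * c₀ - a₀ * c₁) * a₀)) * g +
      (C ((a₁ * c₀ - a₀ * c₁) * a₁) - C (a₁ * b₀ - a₀ * b₁) * (C a₁ * Polynomial.X + C b₁)) * h =
      C (resultant a₀ b₀ c₀ a₁ b₁ c₁) := by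
    rw [hg, hh]
    unfold resultant
    simp only [C_sub, C_mul, C_pow]
    ring
  have hl : 0 < g.leadingCoeff := by
    rcases hpos with h1 | ⟨h1, h2⟩ | ⟨h1, h2, h3⟩
    · rw [hg, leadingCoeff_quadratic h1.ne']
      exact h1
    · rw [hg, h1, C_0, zero_mul, zero_add, leadingCoeff_linear h2.ne']
      exact h2
    · rw [hg, h1, h2, C_0, zero_mul, zero_mul, zero_add, zero_add, leadingCoeff_C]
      exact h3
  have hdeg : 0 < g.natDegree ∨ 0 < h.natDegree := by
    by_contra hcon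
    push Not at hcon
    obtain ⟨d1, d2⟩ := hcon
    have e1 : ∀ t : ℤ, g.eval t = g.coeff 0 := fun t => by
      rw [eq_C_of_natDegree_le_zero d1, eval_C, coeff_C_zero]
    have e2 : ∀ t : ℤ, h.eval t = h.coeff 0 := fun t => by
      rw [eq_C_of_natDegree_le_zero d2, eval_C, coeff_C_zero]
    have g0 := e1 0
    have g1 := e1 1
    have g2 := e1 2
    have h0 := e2 0
    have h1 := e2 1
    have h2 := e2 2
    rw [hge] at g0 g1 g2
    rw [hhe] at h0 h1 h2
    have f1 : a₁ = 0 := by linarith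
    have f2 : b₁ = 0 := by linarith
    have f3 : a₀ = 0 := by linarith
    have f4 : b₀ = 0 := by linarith
    apply hres
    unfold resultant
    rw [f1, f2, f3, f4]
    ring
  obtain ⟨κ, Λ, hκ, hΛ, H⟩ := Pool.Agent.L0h41.PE.pencil hbez hres hdeg hl θ ε k hθ hθ1 hk hε
  refine ⟨κ, Λ, hκ, hΛ, ?_⟩
  intro lam hlam
  obtain ⟨X₀, hX₀⟩ := Filter.eventually_atTop.1 (H lam hlam)
  refine ⟨X₀, ?_⟩
  intro X hX Z L hL hZL
  refine le_trans ?_ (hX₀ X hX Z L hL hZL)
  apply Nat.cast_le.2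
  apply card_le_card
  intro n hn
  rw [mem_filter] at hn ⊢
  obtain ⟨hn1, hn2, hn3⟩ := hn
  have hval : ∀ t : ℕ, g.eval (t : ℤ) * n + h.eval (t : ℤ) =
      f (a₀ + n * a₁) (b₀ + n * b₁) (c₀ + n * c₁) t := by
    intro t
    rw [hge, hhe]
    unfold f
    ring
  refine ⟨hn1, ?_, ?_⟩
  · intro p hp
    obtain ⟨t, ht⟩ := no_fixed _ _ _ hn2 p hp
    refine ⟨t, ?_⟩
    rw [hval]
    exact ht
  · have e : Pool.Agent.L0h41.PE.cntT g h k n ⌊lam * Real.log X⌋₊ ((X : ℝ) ^ (θ / 10)) =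
        firstValues (a₀ + n * a₁) (b₀ + n * b₁) (c₀ + n * c₁) k ⌊lam * Real.log X⌋₊
          ((X : ℝ) ^ (θ / 10)) := by
      unfold Pool.Agent.L0h41.PE.cntT firstValues
      congr 1
      ext t
      simp only [mem_filter, hval]
    rw [e]
    exact hn3

end Pool.Agent.Results.MP_a17b09_nt.Lines
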