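import Pool.Agent.L0h41.LW.E

set_option autoImplicit false

/-!
# Almost prime values of every admissible quadratic polynomial in almost all windows of logarithmic length

For EVERY admissible triple `(a, b, c)`, `f(t) = a t² + b t + c`, and every `ε > 0`: there is `κ > 0` such that for all
large `λ` and `X` all but at most `ε X` of the integers `n ≤ X` have at least `κ λ` integers `m` in the window
`(n, n + λ log X]` for which `f(m)` has at most FIVE prime factors, counted with multiplicity, all of them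
`≥ X^(1/9)`. The same holds for the `n` in any interval of length `≥ X^θ`, with at most `k` prime factors,
`k > 1/8 + 25/(6θ)`, all of them `≥ X^(θ/9)`.

Proof: `Pool/Agent/L0h41/LW`: the second moment, over `n`, of the sums over the window of the (lower bound) weights of
the weighted linear sieve of level `X^τ`, `τ < θ/2`, minus their mean, over the integers `m` for which `f(m)` has no
small prime factor; and the second moment of the number of such `m` in the window.
-/

namespace Pool.Agent.Results.MP_a17b09_nt.LogWindows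

open Finset

/-- The polynomial. -/
def f (a b c : ℤ) (t : ℕ) : ℤ := a * (t : ℤ) ^ 2 + b * (t : ℤ) + c

/-- The admissible triples of Conjecture F. -/
def Admissible (a b c : ℤ) : Prop :=
  0 < a ∧ Int.gcd (Int.gcd a b : ℤ) c = 1 ∧ ¬ (Even (a + b) ∧ Even c) ∧ ¬ IsSquare (b ^ 2 - 4 * a * c)

open Classical in
/-- The number of the integers `n < m ≤ n + T` for which `|f(m)|` has at most `k` prime factors, counted with
multiplicity, all of them `≥ w`. -/
noncomputable def windowCount (a b c : ℤ) (k : ℕ) (w : ℝ) (n T : ℕ) : ℕ :=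
  ((Ioc n (n + T)).filter (fun m : ℕ => (f a b c m).natAbs.primeFactorsList.length ≤ k ∧
    ∀ p : ℕ, p.Prime → (p : ℤ) ∣ f a b c m → w ≤ (p : ℝ))).card

open Classical in
theorem result (a b c : ℤ) (h : Admissible a b c) (θ ε : ℝ) (k : ℕ) (hθ : 0 < θ) (hθ1 : θ ≤ 1)
    (hk : 1 / 8 + 25 / (6 * θ) < k) (hε : 0 < ε) :
    ∃ κ Λ : ℝ, 0 < κ ∧ 0 < Λ ∧ ∀ lam : ℝ, Λ ≤ lam → ∃ X₀ : ℕ, ∀ X : ℕ, X₀ ≤ X → ∀ Z L : ℕ,
      (X : ℝ) ^ θ ≤ L → Z + L ≤ X →
      (((Ioc Z (Z + L)).filter (fun n : ℕ =>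
        (windowCount a b c k ((X : ℝ) ^ (θ / 9)) n ⌊lam * Real.log X⌋₊ : ℝ) < κ * lam)).card : ℝ) ≤ ε * L := by
  obtain ⟨ha, hg, hpar, hD⟩ := h
  obtain ⟨c0, K, D⟩ := Pool.Agent.L0h41.LW.dat_q a b c ha (by
    rintro p hp ⟨h1, h2, h3⟩
    have h4 : (p : ℤ) ∣ Int.gcd a b := Int.dvd_coe_gcd h1 h2
    have h5 : (p : ℤ) ∣ Int.gcd (Int.gcd a b : ℤ) c := Int.dvd_coe_gcd h4 h3
    rw [hg] at h5
    have h6 : p ∣ 1 := by exact_mod_cast h5
    exact hp.one_lt.ne' (Nat.dvd_one.1 h6)) hpar hD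
  obtain ⟨κ, Λ, hκ, hΛ, H⟩ := Pool.Agent.L0h41.LW.final _ c0 2 K D θ ε k hθ hθ1 (by
    have e : (25 : ℝ) * ((2 : ℕ) : ℝ) / (12 * θ) = 25 / (6 * θ) := by
      push_cast
      field_simp
      norm_num
    rw [e]
    exact hk) hε
  refine ⟨κ, Λ, hκ, hΛ, ?_⟩
  intro lam hlam
  obtain ⟨X₀, hX₀⟩ := Filter.eventually_atTop.1 (H lam hlam)
  refine ⟨X₀, ?_⟩
  intro X hX Z L hL hZL
  refine le_trans (le_of_eq ?_) (hX₀ X hX Z L hL hZL)
  congr 2
  apply Finset.filter_congr
  intro n _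
  unfold windowCount
  have e : (Ioc n (n + ⌊lam * Real.log X⌋₊)).filter (fun m : ℕ =>
      (f a b c m).natAbs.primeFactorsList.length ≤ k ∧
        ∀ p : ℕ, p.Prime → (p : ℤ) ∣ f a b c m → (X : ℝ) ^ (θ / 9) ≤ (p : ℝ)) =
      (Ioc n (n + ⌊lam * Real.log X⌋₊)).filter (fun m : ℕ =>
      (Pool.Agent.L0h41.LW.Fq a b c m).primeFactorsList.length ≤ k ∧
        ∀ p : ℕ, p.Prime → p ∣ Pool.Agent.L0h41.LW.Fq a b c m → (X : ℝ) ^ (θ / 9) ≤ (p : ℝ)) := by
    apply Finset.filter_congr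
    intro m _
    apply and_congr Iff.rfl
    apply forall_congr'
    intro p
    apply forall_congr'
    intro _
    have : (p : ℤ) ∣ f a b c m ↔ p ∣ Pool.Agent.L0h41.LW.Fq a b c m := Int.natCast_dvd
    rw [this]
  rw [e]

end Pool.Agent.Results.MP_a17b09_nt.LogWindows
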