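import Mathlib
import Pool.Agent.L0h42.PP.P11

/-!
# Prime values of quadratic polynomials which begin patterns of primes, for almost all constant terms

Let `f(t) = a t² + b t + c`. The case of a single polynomial on average over the constant term `c` is known (with the
asymptotic formula of Conjecture F). Here several polynomials with the same `a`, `b` and constant terms at bounded
distances are prime for the same `t`.

(1) For every `m` there is `κ` such that for all `a > 0`, `b` and `C ≥ 1`: for all but at most `(κ / C) X` of the `c ≤ X`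
for which `(a, b, c)` is admissible there is a set `D` of `m` integers in `[1, C]` such that `f(t)` and all `f(t) + d`,
`d ∈ D`, are primes for at least `√c / (log c)^E` integers `t ≤ √(c / Q)`.

(2) For every `m` there is `k` such that for all `a > 0`, `b` and distinct integers `h_1, ..., h_k`: for almost all `c`
for which no prime divides all the values `∏ (f(t) + h_i)`, some `m` of the polynomials `f + h_i` are simultaneously
prime for at least `√c / (log c)^E` integers `t ≤ √(c / Q)`.

In addition the `t` can be taken with at least `m + 1` (`m`) primes in `[t, t + R]`, where `R` depends only on `m`.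

Proof (`Pool/Agent/L0h42/PP`): for almost all residue classes (of `c` and `t`) modulo the product of the primes up to
`K log log X`, the weighted sums of the method of Maynard and Tao over the `t` of the class (with weights of divisors of
the values `f(t) + h_i`) are close to their means for almost all `c` (second moments over `c`; the values are not
restricted to admissible differences, the singular factor is `1 + o(1)` because the small primes have been removed); the
primes are detected by the theorem of Siegel and Walfisz and the circle method (exponential sums over the values of `f`).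
The primes near `t` are given by the same method for the integers `t`. From (2) with multiples `h_i` of a fixed integer
one gets (1): the `c` without a pattern are at most `k` in an interval of length `C`.
-/

set_option autoImplicit false

namespace Pool.Agent.Results.MP_a17b09_nt.PatternsOfPrimes

open Finset

/-- The polynomial. -/
def f (a b c t : ℤ) : ℤ := a * t ^ 2 + b * t + c

/-- The triple `(a, b, c)` is admissible. -/
def Admissible (a b c : ℤ) : Prop :=
  0 < a ∧ Int.gcd (Int.gcd a b : ℤ) c = 1 ∧ ¬ (Even (a + b) ∧ Even c) ∧ ¬ IsSquare (b ^ 2 - 4 * a * c)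

/-- The number of the primes in `[t, t + R]`. -/
def primesNear (R t : ℕ) : ℕ := ((Icc t (t + R)).filter Nat.Prime).card

open Classical in
/-- The integers `1 ≤ t ≤ √(c / Q)` with at least `l` primes in `[t, t + R]` for which `f(t) + h` is a (positive) prime
for all `h ∈ H`. -/
noncomputable def arguments (a b : ℤ) (Q R l c : ℕ) (H : Finset ℤ) : Finset ℕ :=
  (Icc 1 c).filter (fun t : ℕ => Q * t ^ 2 ≤ c ∧ l ≤ primesNear R t ∧ ∀ h ∈ H, (f a b c t + h).toNat.Prime)

/-- Some set `D` of `m` integers in `[1, C]` is such that `f(t)` and all `f(t) + d`, `d ∈ D`, are prime for at least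
`√c / (log c)^E` integers `t`. -/
def Pattern (a b : ℤ) (Q R m C E c : ℕ) : Prop :=
  ∃ D ⊆ Icc (1 : ℤ) C, D.card = m ∧ √(c : ℝ) / Real.log c ^ E ≤ ((arguments a b Q R (m + 1) c (insert 0 D)).card : ℝ)

/-- No prime divides all the values of the product of the `f(t) + h_i`. -/
def NoFixed {k : ℕ} (a b : ℤ) (h : Fin k → ℤ) (c : ℕ) : Prop :=
  ∀ p : ℕ, p.Prime → ∃ t : ℤ, ¬ (p : ℤ) ∣ ∏ i, (f a b c t + h i)

/-- Some `m` of the `k` polynomials `f + h_i` are simultaneously prime for at least `√c / (log c)^E` integers `t`. -/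
def Simultaneous {k : ℕ} (a b : ℤ) (Q R m E : ℕ) (h : Fin k → ℤ) (c : ℕ) : Prop :=
  ∃ I : Finset (Fin k), I.card = m ∧ √(c : ℝ) / Real.log c ^ E ≤ ((arguments a b Q R m c (I.image h)).card : ℝ)

open Classical in
/-- The number of the `c ≤ X` for which `(a, b, c)` is admissible and there is no pattern. -/
noncomputable def exceptions₁ (a b : ℤ) (Q R m C E X : ℕ) : ℕ :=
  ((Icc 1 X).filter (fun c : ℕ => Admissible a b c ∧ ¬ Pattern a b Q R m C E c)).card

open Classical in
/-- The number of the `c ≤ X` without local obstruction for which no `m` of the polynomials are simultaneously prime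
sufficiently often. -/
noncomputable def exceptions₂ {k : ℕ} (a b : ℤ) (Q R m E : ℕ) (h : Fin k → ℤ) (X : ℕ) : ℕ :=
  ((Icc 1 X).filter (fun c : ℕ => NoFixed a b h c ∧ ¬ Simultaneous a b Q R m E h c)).card

/-- the polynomial without its constant term -/
noncomputable def F (a b : ℤ) : Polynomial ℤ :=
  Polynomial.C a * Polynomial.X ^ 2 + Polynomial.C b * Polynomial.X + Polynomial.C 0

lemma F_eval (a b c t : ℤ) : c + (F a b).eval t = f a b c t := by
  unfold F f
  simp only [Polynomial.eval_add, Polynomial.eval_mul, Polynomial.eval_C, Polynomial.eval_pow, Polynomial.eval_X]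
  ring

lemma not_dvd {a b c : ℤ} (h : Admissible a b c) {p : ℕ} (hp : p.Prime) (ha : (p : ℤ) ∣ a) (hb : (p : ℤ) ∣ b) :
    ¬ (p : ℤ) ∣ c := by
  intro hc
  have h1 : (p : ℤ) ∣ (Int.gcd (Int.gcd a b : ℤ) c : ℤ) := Int.dvd_coe_gcd (Int.dvd_coe_gcd ha hb) hc
  rw [h.2.1] at h1
  have h2 : p ∣ 1 := by exact_mod_cast h1
  exact hp.one_lt.ne' (Nat.dvd_one.1 h2)

/-- an admissible polynomial has no fixed prime divisor -/
lemma no_fixed {a b c : ℤ} (h : Admissible a b c) (p : ℕ) (hp : p.Prime) : ∃ t : ℤ, ¬ (p : ℤ) ∣ f a b c t := by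
  by_contra hcon
  push Not at hcon
  have h0 := hcon 0
  have h1 := hcon 1
  have h2 := hcon 2
  unfold f at h0 h1 h2
  have g0 : (p : ℤ) ∣ c := by simpa using h0
  have g1 : (p : ℤ) ∣ a + b := by
    have : (p : ℤ) ∣ (a * 1 ^ 2 + b * 1 + c) - c := dvd_sub h1 g0
    have e : (a * 1 ^ 2 + b * 1 + c) - c = a + b := by ring
    rwa [e] at this
  have g2 : (p : ℤ) ∣ 2 * a := by
    have : (p : ℤ) ∣ (a * 2 ^ 2 + b * 2 + c) - c - 2 * (a + b) := dvd_sub (dvd_sub h2 g0) (Dvd.dvd.mul_left g1 2)
    have e : (a * 2 ^ 2 + b * 2 + c) - c - 2 * (a + b) = 2 * a := by ring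
    rwa [e] at this
  by_cases hp2 : p = 2
  · subst hp2
    exact h.2.2.1 ⟨even_iff_two_dvd.2 (by exact_mod_cast g1), even_iff_two_dvd.2 (by exact_mod_cast g0)⟩
  · have hpz : Prime (p : ℤ) := Nat.prime_iff_prime_int.1 hp
    rcases hpz.dvd_or_dvd g2 with g | g
    · have : p ∣ 2 := by exact_mod_cast g
      exact hp2 ((Nat.prime_dvd_prime_iff_eq hp Nat.prime_two).1 this)
    · have gb : (p : ℤ) ∣ b := (dvd_add_right g).1 g1
      exact not_dvd h hp g gb g0

lemma near_eq (R t : ℕ) : ((range (R + 1)).filter (fun j => (t + j).Prime)).card ≤ primesNear R t := by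
  unfold primesNear
  apply card_le_card_of_injOn (fun j => t + j)
  · intro j hj
    rw [mem_coe, mem_filter, mem_range] at hj
    rw [mem_coe, mem_filter, mem_Icc]
    show (t ≤ t + j ∧ t + j ≤ t + R) ∧ (t + j).Prime
    exact ⟨⟨by omega, by omega⟩, hj.2⟩
  · intro j _ j' _ h
    simpa using h

lemma root_eq (c : ℕ) : √(c : ℝ) = (c : ℝ) ^ (1 / ((2 : ℕ) : ℝ)) := by
  rw [Real.sqrt_eq_rpow]
  norm_num

theorem result (m : ℕ) (hm : 1 ≤ m) :
    (∃ (κ : ℝ) (R : ℕ), 0 < κ ∧ ∀ a b : ℤ, 0 < a → ∀ Q C : ℕ, 1 ≤ Q → 1 ≤ C → ∃ E X₀ : ℕ, ∀ X : ℕ, X₀ ≤ X →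
      (exceptions₁ a b Q R m C E X : ℝ) ≤ κ / C * X) ∧
    (∃ k R : ℕ, ∀ a b : ℤ, 0 < a → ∀ Q : ℕ, 1 ≤ Q → ∀ h : Fin k → ℤ, Function.Injective h → ∀ ε : ℝ, 0 < ε →
      ∃ E X₀ : ℕ, ∀ X : ℕ, X₀ ≤ X → (exceptions₂ a b Q R m E h X : ℝ) ≤ ε * X) := by
  classical
  have hdeg : ∀ a b : ℤ, 0 < a → (F a b).natDegree = 2 := fun a b ha => Polynomial.natDegree_quadratic ha.ne'
  refine ⟨?_, ?_⟩
  · obtain ⟨R, κ, hκ, hC⟩ := Pool.Agent.L0h42.PP.thm_C m 2 (by norm_num)
    refine ⟨κ, R, hκ, fun a b ha Q C hQ hC1 => ?_⟩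
    obtain ⟨E, X₀, h0⟩ := hC (F a b) (hdeg a b ha) Q C hQ hC1
    refine ⟨E, X₀, fun X hX => ?_⟩
    refine le_trans (Nat.cast_le.2 ?_) (h0 X hX)
    unfold exceptions₁
    apply card_le_card
    intro c hc
    rw [mem_filter] at hc ⊢
    refine ⟨hc.1, ?_, ?_⟩
    · intro p hp
      obtain ⟨t, ht⟩ := no_fixed hc.2.1 p hp
      exact ⟨t, by rwa [F_eval]⟩
    · rintro ⟨D, hD1, hD2, hD3⟩
      apply hc.2.2
      refine ⟨D.image (fun d : ℕ => (d : ℤ)), ?_, ?_, ?_⟩
      · intro d hd
        rw [mem_image] at hd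
        obtain ⟨d', hd', rfl⟩ := hd
        have := mem_Icc.1 (hD1 hd')
        rw [mem_Icc]
        omega
      · rw [card_image_of_injective _ Nat.cast_injective, hD2]
      · rw [root_eq]
        refine hD3.trans (Nat.cast_le.2 (card_le_card ?_))
        intro t ht
        unfold Pool.Agent.L0h42.PP.Rc at ht
        unfold arguments
        rw [mem_filter] at ht ⊢
        obtain ⟨h1, h2, h3, h4, h5⟩ := ht
        refine ⟨h1, h2, h3.trans (near_eq R t), fun d hd => ?_⟩
        rw [mem_insert, mem_image] at hd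
        rcases hd with rfl | ⟨d', hd', rfl⟩
        · rw [add_zero, ← F_eval]
          exact h4
        · rw [← F_eval]
          exact h5 d' hd'
  · obtain ⟨k, R, -, hB⟩ := Pool.Agent.L0h42.PP.thm_B m 2 hm (by norm_num)
    refine ⟨k, R, fun a b ha Q hQ h hh ε hε => ?_⟩
    obtain ⟨E, X₀, h0⟩ := hB (F a b) (hdeg a b ha) Q 1 hQ le_rfl h hh ε hε
    refine ⟨E, X₀, fun X hX => ?_⟩
    refine le_trans (Nat.cast_le.2 ?_) (h0 X hX)
    unfold exceptions₂
    apply card_le_card
    intro c hc
    rw [mem_filter] at hc ⊢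
    have hval : ∀ (t : ℤ) (i : Fin k), ((1 : ℕ) : ℤ) * c + (F a b).eval t + h i = f a b c t + h i := by
      intro t i
      rw [← F_eval]
      push_cast
      ring
    refine ⟨hc.1, ?_, ?_⟩
    · intro p hp
      obtain ⟨t, ht⟩ := hc.2.1 p hp
      refine ⟨t, fun i hd => ht ?_⟩
      rw [hval] at hd
      exact hd.trans (dvd_prod_of_mem _ (mem_univ i))
    · rintro ⟨I, hI1, hI2⟩
      apply hc.2.2
      refine ⟨I, hI1, ?_⟩
      rw [root_eq]
      refine hI2.trans (Nat.cast_le.2 (card_le_card ?_))
      intro t ht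
      unfold Pool.Agent.L0h42.PP.Rb at ht
      unfold arguments
      rw [mem_filter] at ht ⊢
      obtain ⟨h1, h2, h3, h4⟩ := ht
      refine ⟨h1, h2, h3.trans (near_eq R t), fun d hd => ?_⟩
      rw [mem_image] at hd
      obtain ⟨i, hi, rfl⟩ := hd
      have := h4 i hi
      rwa [hval] at this

end Pool.Agent.Results.MP_a17b09_nt.PatternsOfPrimes
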